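import Mathlib

/-! Tolerance graphs have an efficient local representation. -/

namespace Pool.Agent.Results.MP_04ae81_co.ToleranceLocal

/-- The length of the intersection of the intervals `[L, R]` and `[L', R']`. -/
noncomputable def overlap (L R L' R' : ℝ) : ℝ := max 0 (min R R' - max L L')

/-- Tolerance graphs: there are intervals `[L v, R v]` and tolerances `t v > 0` such that distinct
`v, w` are adjacent exactly when the length of `I_v ∩ I_w` is at least `min (t v) (t w)`. -/
def IsTolerance {V : Type} (G : SimpleGraph V) : Prop :=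
  ∃ L R t : V → ℝ, (∀ v, L v ≤ R v) ∧ (∀ v, 0 < t v) ∧
    ∀ v w, v ≠ w → (G.Adj v w ↔ min (t v) (t w) ≤ overlap (L v) (R v) (L w) (R w))

/-- Efficient local representations `(A, k)` of a class of finite graphs: `A` is symmetric,
`k ≥ 1`, and every graph of the class on `n` vertices has labels in `{1, …, n ^ k}` from which `A`
reads off adjacency. -/
def HasEfficientLocalRep (P : ∀ V : Type, SimpleGraph V → Prop) : Prop :=
  ∃ (A : ℕ → ℕ → Bool) (k : ℕ), 1 ≤ k ∧ (∀ a b, A a b = A b a) ∧
    ∀ (V : Type) [Fintype V] (G : SimpleGraph V), P V G →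
      ∃ l : V → ℕ, (∀ v, 1 ≤ l v ∧ l v ≤ Fintype.card V ^ k) ∧
        ∀ v w, v ≠ w → (G.Adj v w ↔ A (l v) (l w) = true)

/-! ### Ranks -/

/-- rank of a value among all values -/
noncomputable def rank {ι : Type} [Fintype ι] (f : ι → ℝ) (i : ι) : ℕ :=
  (Finset.univ.filter fun j => f j < f i).card

theorem rank_lt {ι : Type} [Fintype ι] (f : ι → ℝ) (i : ι) : rank f i < Fintype.card ι := by
  unfold rank
  rw [← Finset.card_univ]
  apply Finset.card_lt_card
  refine ⟨Finset.subset_univ _, fun h => ?_⟩
  have := h (Finset.mem_univ i)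
  simp at this

theorem rank_le_iff {ι : Type} [Fintype ι] (f : ι → ℝ) (i j : ι) :
    rank f i ≤ rank f j ↔ f i ≤ f j := by
  constructor
  · intro h
    by_contra hlt
    push Not at hlt
    apply absurd h
    push Not
    unfold rank
    apply Finset.card_lt_card
    refine ⟨fun k hk => ?_, fun h => ?_⟩
    · simp only [Finset.mem_filter, Finset.mem_univ, true_and] at hk ⊢
      exact hk.trans hlt
    · have h2 : j ∈ Finset.univ.filter fun k => f k < f i := by simpa using hlt
      have h3 := h h2
      simp at h3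
  · intro h
    apply Finset.card_le_card
    intro k hk
    simp only [Finset.mem_filter, Finset.mem_univ, true_and] at hk ⊢
    exact hk.trans_le h

/-! ### Codes -/

theorem pair_lt {x y M : ℕ} (hx : x < M) (hy : y < M) : Nat.pair x y < M ^ 2 := by
  refine (Nat.pair_lt_max_add_one_sq x y).trans_le ?_
  apply Nat.pow_le_pow_left
  have : max x y < M := max_lt hx hy
  omega

/-- the code of six numbers -/
def code (x : Fin 6 → ℕ) : ℕ :=
  Nat.pair (Nat.pair (x 0) (x 1)) (Nat.pair (Nat.pair (x 2) (x 3)) (Nat.pair (x 4) (x 5)))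

/-- decoding -/
def dec (m : ℕ) : Fin 6 → ℕ :=
  ![m.unpair.1.unpair.1, m.unpair.1.unpair.2, m.unpair.2.unpair.1.unpair.1,
    m.unpair.2.unpair.1.unpair.2, m.unpair.2.unpair.2.unpair.1, m.unpair.2.unpair.2.unpair.2]

theorem dec_code (x : Fin 6 → ℕ) : dec (code x) = x := by
  funext i
  fin_cases i <;> simp [dec, code]

theorem code_lt (x : Fin 6 → ℕ) (M : ℕ) (h : ∀ i, x i < M) : code x < M ^ 8 := by
  have hM : 0 < M := (Nat.zero_le _).trans_lt (h 0)
  have h1 := pair_lt (h 0) (h 1)
  have h2 := pair_lt (pair_lt (h 2) (h 3)) (pair_lt (h 4) (h 5))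
  have h3 : Nat.pair (x 0) (x 1) < (M ^ 2) ^ 2 := h1.trans_le (Nat.le_self_pow (by norm_num) _)
  have h4 := pair_lt h3 h2
  have e : ((M ^ 2) ^ 2) ^ 2 = M ^ 8 := by rw [← pow_mul, ← pow_mul]
  rw [e] at h4
  exact h4

/-- the condition that the overlap is at least the tolerance of the first vertex; coordinates are
`L, R, t, R - t, L + t, R - L` -/
def half (x y : Fin 6 → ℕ) : Bool :=
  decide (x 2 ≤ x 5) && decide (y 0 ≤ x 3) && decide (x 4 ≤ y 1) && decide (x 2 ≤ y 5)

/-- the adjacency function -/
def A (a b : ℕ) : Bool :=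
  half (dec (a - 1)) (dec (b - 1)) || half (dec (b - 1)) (dec (a - 1))

/-- the six values -/
def vals {V : Type} (L R t : V → ℝ) (p : V × Fin 6) : ℝ :=
  (![L p.1, R p.1, t p.1, R p.1 - t p.1, L p.1 + t p.1, R p.1 - L p.1] : Fin 6 → ℝ) p.2

theorem half_iff {V : Type} [Fintype V] (L R t : V → ℝ) (v w : V) :
    half (fun i => rank (vals L R t) (v, i)) (fun i => rank (vals L R t) (w, i)) = true ↔
      t v ≤ min (R v) (R w) - max (L v) (L w) := by
  unfold half
  simp only [Bool.and_eq_true, decide_eq_true_eq, rank_le_iff]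
  simp only [vals, Matrix.cons_val]
  constructor
  · rintro ⟨⟨⟨h1, h2⟩, h3⟩, h4⟩
    rcases min_cases (R v) (R w) with h | h <;> rcases max_cases (L v) (L w) with h' | h' <;>
      rw [h.1, h'.1] <;> linarith
  · intro h
    have a1 := min_le_left (R v) (R w)
    have a2 := min_le_right (R v) (R w)
    have b1 := le_max_left (L v) (L w)
    have b2 := le_max_right (L v) (L w)
    refine ⟨⟨⟨?_, ?_⟩, ?_⟩, ?_⟩ <;> linarith

theorem min_le_overlap {a b c : ℝ} (ha : 0 < a) (hb : 0 < b) :
    min a b ≤ max 0 c ↔ a ≤ c ∨ b ≤ c := by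
  have h0 : 0 < min a b := lt_min ha hb
  rw [← min_le_iff, le_max_iff]
  constructor
  · rintro (h | h)
    · exact absurd h (not_le.mpr h0)
    · exact h
  · exact Or.inr

/-- The class of tolerance graphs admits an efficient local representation. -/
theorem result : HasEfficientLocalRep (fun _ G => IsTolerance G) := by
  refine ⟨A, 32, by norm_num, fun a b => ?_, ?_⟩
  · unfold A
    rw [Bool.or_comm]
  · intro V _ G hG
    obtain ⟨L, R, t, -, ht, hadj⟩ := hG
    rcases lt_or_ge (Fintype.card V) 2 with hc | hc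
    · refine ⟨fun _ => 1, fun v => ⟨le_rfl, ?_⟩, fun v w hvw => ?_⟩
      · have : 0 < Fintype.card V := Fintype.card_pos_iff.mpr ⟨v⟩
        exact Nat.one_le_pow _ _ this
      · have h1 : Fintype.card V ≤ 1 := Nat.lt_succ_iff.mp hc
        have : Subsingleton V := Fintype.card_le_one_iff_subsingleton.mp h1
        exact absurd (Subsingleton.elim v w) hvw
    · refine ⟨fun v => code (fun i => rank (vals L R t) (v, i)) + 1, fun v => ⟨Nat.le_add_left 1 _, ?_⟩,
        fun v w hvw => ?_⟩
      · have h1 : ∀ i : Fin 6, rank (vals L R t) (v, i) < Fintype.card V ^ 4 := by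
          intro i
          refine (rank_lt _ _).trans_le ?_
          rw [Fintype.card_prod, Fintype.card_fin]
          have h2 : 2 ^ 3 ≤ Fintype.card V ^ 3 := Nat.pow_le_pow_left hc 3
          calc Fintype.card V * 6 ≤ Fintype.card V * Fintype.card V ^ 3 :=
                Nat.mul_le_mul_left _ ((by norm_num : 6 ≤ 2 ^ 3).trans h2)
            _ = Fintype.card V ^ 4 := by ring
        have h2 := code_lt _ _ h1
        rw [← pow_mul] at h2
        exact h2
      · rw [hadj v w hvw]
        unfold A
        simp only [Nat.add_sub_cancel, dec_code, Bool.or_eq_true, half_iff]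
        unfold overlap
        rw [min_le_overlap (ht v) (ht w), min_comm (R w) (R v), max_comm (L w) (L v)]

end Pool.Agent.Results.MP_04ae81_co.ToleranceLocal
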